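import Pool.Agent.H57.BD.Stmts

/-! Project BDS, module PZ. -/

set_option autoImplicit false

namespace Pool.BD

private theorem pz_dep_le (lev : ℕ → ℕ) (S : Finset ℕ) (c : ℕ) (hc : c ∈ S) :
    dep lev S ≤ lev c := Nat.sInf_le ⟨c, hc, rfl⟩

private theorem pz_ne (lev : ℕ → ℕ) (S : Finset ℕ) (hS : S.Nonempty) : (loP lev S).Nonempty := by
  obtain ⟨c, hc⟩ := hS
  have h : dep lev S ∈ {n | ∃ c ∈ S, lev c = n} := Nat.sInf_mem ⟨lev c, c, hc, rfl⟩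
  obtain ⟨c', hc', h'⟩ := h
  exact ⟨c', Finset.mem_filter.2 ⟨hc', h'⟩⟩

theorem pz (h1 : SONEStmt) (h2 : TYPAStmt) : PZStmt := by
  intro F lev r N hB
  have hne : ∀ a : {S // S ∈ F}, (loP lev a.1).Nonempty := fun a => pz_ne lev a.1 (hB.ne _ a.2)
  let lo : {S // S ∈ F} → ℕ := fun a => (loP lev a.1).min' (hne a)
  let hi : {S // S ∈ F} → ℕ := fun a => (loP lev a.1).max' (hne a)
  have hlo : ∀ a, lo a ∈ loP lev a.1 := fun a => Finset.min'_mem _ _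
  have hhi : ∀ a, hi a ∈ loP lev a.1 := fun a => Finset.max'_mem _ _
  have hlole : ∀ a, ∀ c ∈ loP lev a.1, lo a ≤ c := fun a c hc => Finset.min'_le _ _ hc
  have hhile : ∀ a, ∀ c ∈ loP lev a.1, c ≤ hi a := fun a c hc => Finset.le_max' _ _ hc
  have hE : ∀ a : {S // S ∈ F}, ∀ c ∈ a.1, c ∈ F.biUnion id := fun a c hc =>
    Finset.mem_biUnion.2 ⟨a.1, a.2, hc⟩
  have key : ∀ a : {S // S ∈ F}, ∀ e ∈ F.biUnion id, lo a ≤ e → e ≤ hi a →
      ¬ lev e < dep lev a.1 ∧ (lev e = dep lev a.1 → e ∈ a.1) := by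
    intro a e he h3 h4
    obtain ⟨S₀, hS₀, he0⟩ := Finset.mem_biUnion.1 he
    exact h1 F lev hB.star hB.lev (dep lev a.1) a.1 a.2 (fun c hc => pz_dep_le lev a.1 c hc) S₀ hS₀
      e he0 ⟨lo a, (Finset.mem_filter.1 (hlo a)).1, h3⟩ ⟨hi a, (Finset.mem_filter.1 (hhi a)).1, h4⟩
  refine ⟨lo, hi, fun a c hc => ⟨hlole a c hc, hhile a c hc⟩, ?_⟩
  refine h2 {S // S ∈ F} N (F.biUnion id) lev r (fun a => loP lev a.1) lo hi
    (fun a => dep lev a.1) hB.le hB.nc ⟨?_, ?_, ?_⟩ ?_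
  · intro a c hc
    obtain ⟨h3, h4⟩ := Finset.mem_filter.1 hc
    exact ⟨hE a c h3, h4, hlole a c hc, hhile a c hc⟩
  · intro a e he h3 h4 h5
    exact (key a e he h4 h5).1 h3
  · intro a b b' hbb hb' hnot
    by_cases h3 : lo a ≤ b ∧ b ≤ hi a
    · have h4 : ¬ (lo a ≤ b' ∧ b' ≤ hi a) := fun h => hnot (iff_of_true h3 h)
      have h5 : hi a ≤ b' := by
        by_contra h
        exact h4 ⟨le_trans h3.1 hbb, by omega⟩
      obtain ⟨h6, h7⟩ := Finset.mem_filter.1 (hhi a)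
      exact ⟨hi a, hE a _ h6, h7.le, h3.2, h5⟩
    · have h4 : lo a ≤ b' ∧ b' ≤ hi a := by
        by_contra h
        exact hnot (iff_of_false h3 h)
      have h5 : b ≤ lo a := by
        by_contra h
        exact h3 ⟨by omega, le_trans hbb h4.2⟩
      obtain ⟨h6, h7⟩ := Finset.mem_filter.1 (hlo a)
      exact ⟨lo a, hE a _ h6, h7.le, h5, h4.1⟩
  · intro a c hc h3 h4 h5
    exact Finset.mem_filter.2 ⟨(key a c hc h4 h5).2 h3, h3⟩

end Pool.BD
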